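import Pool.Agent.Helper22.FF.Sect

/-!
# Part I of the theorem on birational sections over function fields: coefficients of rational functions
-/

set_option autoImplicit false

namespace Pool.Agent.Helper22.FF

open Pool.Agent.Helper14.BSC Polynomial Pool.Agent.Helper60.FF Pool.Agent.Helper18.FF3

theorem cf_num_denom {K L : Type} [Field K] [Field L] (φ : K →+* L) (c : RatFunc L)
    (P Q : Polynomial K) (hQ : Q ≠ 0)
    (h : c * algebraMap (Polynomial L) (RatFunc L) (Q.map φ) =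
      algebraMap (Polynomial L) (RatFunc L) (P.map φ)) :
    ∃ P₁ Q₁ : Polynomial K, c.num = P₁.map φ ∧ c.denom = Q₁.map φ := by
  obtain ⟨x, hx⟩ : ∃ x : RatFunc K, x = algebraMap (Polynomial K) (RatFunc K) P /
    algebraMap (Polynomial K) (RatFunc K) Q := ⟨_, rfl⟩
  have hQm : Q.map φ ≠ 0 := (Polynomial.map_ne_zero_iff φ.injective).2 hQ
  have hQ' : algebraMap (Polynomial L) (RatFunc L) (Q.map φ) ≠ 0 := RatFunc.algebraMap_ne_zero hQm
  have h1 : x.num * Q = P * x.denom := (RatFunc.num_mul_eq_mul_denom_iff hQ).2 hx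
  have h2 : c.num * Q.map φ = P.map φ * c.denom :=
    (RatFunc.num_mul_eq_mul_denom_iff hQm).2 (by rw [eq_div_iff hQ', h])
  have h3 : (x.num).map φ * Q.map φ = P.map φ * (x.denom).map φ := by
    rw [← Polynomial.map_mul, h1, Polynomial.map_mul]
  have h4 : c.num * (x.denom).map φ = (x.num).map φ * c.denom := by
    apply mul_right_cancel₀ hQm
    calc c.num * (x.denom).map φ * Q.map φ = (c.num * Q.map φ) * (x.denom).map φ := by ring
      _ = (P.map φ * (x.denom).map φ) * c.denom := by rw [h2]; ring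
      _ = (x.num).map φ * c.denom * Q.map φ := by rw [← h3]; ring
  have h5 : IsCoprime ((x.num).map φ) ((x.denom).map φ) :=
    (RatFunc.isCoprime_num_denom x).map (Polynomial.mapRingHom φ)
  have h6 : ((x.denom).map φ).Monic := (RatFunc.monic_denom x).map φ
  have h7 : c.denom ∣ (x.denom).map φ :=
    (RatFunc.isCoprime_num_denom c).symm.dvd_of_dvd_mul_left ⟨(x.num).map φ, by rw [h4]; ring⟩
  have h8 : (x.denom).map φ ∣ c.denom :=
    h5.symm.dvd_of_dvd_mul_left ⟨c.num, by rw [← h4]; ring⟩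
  have h9 : c.denom = (x.denom).map φ :=
    Polynomial.eq_of_monic_of_associated (RatFunc.monic_denom c) h6 (associated_of_dvd_dvd h7 h8)
  refine ⟨x.num, x.denom, ?_, h9⟩
  rw [h9] at h4
  exact mul_right_cancel₀ h6.ne_zero h4

theorem cf_mp {F A : Type} [Field F] [Field A] (ι : F →+* A) (P : Polynomial F) :
    mp ι (algebraMap (Polynomial F) (RatFunc F) P) = algebraMap (Polynomial A) (RatFunc A) (P.map ι) := by
  have h1 := RatFunc.map_apply_div (Polynomial.mapRingHom ι)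
    (nonZeroDivisors_le_comap_nonZeroDivisors_of_injective _ (Polynomial.map_injective ι ι.injective))
    P 1
  rw [mp, RatFunc.coe_mapRingHom_eq_coe_map]
  simpa using h1

theorem cf_mp_num {F A : Type} [Field F] [Field A] (ι : F →+* A) (c₀ : RatFunc F) :
    ∃ P₁ Q₁ : Polynomial F, (mp ι c₀).num = P₁.map ι ∧ (mp ι c₀).denom = Q₁.map ι := by
  refine cf_num_denom ι (mp ι c₀) c₀.num c₀.denom c₀.denom_ne_zero ?_
  rw [← cf_mp, ← cf_mp, ← map_mul]
  congr 1
  have h := RatFunc.num_div_denom c₀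
  rw [div_eq_iff (RatFunc.algebraMap_ne_zero c₀.denom_ne_zero)] at h
  exact h.symm

theorem cf_lift {p : ℕ} [Fact p.Prime] (A : Subfield ℂ_[p]) (E : IntermediateField ℚ_[p] ℂ_[p])
    (P : Polynomial A) (hP : ∀ j, ((P.coeff j : A) : ℂ_[p]) ∈ E) :
    ∃ P' : Polynomial (E.toSubfield.comap A.subtype), P'.map (E.toSubfield.comap A.subtype).subtype = P := by
  have h : P ∈ Polynomial.lifts (E.toSubfield.comap A.subtype).subtype := by
    rw [Polynomial.lifts_iff_coeff_lifts]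
    intro n
    exact ⟨⟨P.coeff n, hP n⟩, rfl⟩
  exact h

theorem cf_ov {p : ℕ} [Fact p.Prime] (A : Subfield ℂ_[p]) (E : IntermediateField ℚ_[p] ℂ_[p])
    (c : RatFunc A) (hc : Ov A E c) :
    (∀ n, ((c.num.coeff n : A) : ℂ_[p]) ∈ E) ∧ (∀ n, ((c.denom.coeff n : A) : ℂ_[p]) ∈ E) := by
  obtain ⟨P, Q, hQ, h1, h2, h3⟩ := hc
  obtain ⟨P', hP'⟩ := cf_lift A E P h1
  obtain ⟨Q', hQ'⟩ := cf_lift A E Q h2
  have hQ0 : Q' ≠ 0 := by
    intro h
    rw [h, Polynomial.map_zero] at hQ'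
    exact hQ hQ'.symm
  obtain ⟨P₁, Q₁, h4, h5⟩ := cf_num_denom (E.toSubfield.comap A.subtype).subtype c P' Q' hQ0
    (by rw [hP', hQ', h3])
  refine ⟨fun n => ?_, fun n => ?_⟩
  · rw [h4, Polynomial.coeff_map]
    exact (P₁.coeff n).2
  · rw [h5, Polynomial.coeff_map]
    exact (Q₁.coeff n).2

theorem cf_range_coeff {R : Type} [Semiring R] (P : Polynomial R) : (Set.range P.coeff).Finite := by
  classical
  refine ((P.support.image P.coeff).finite_toSet.union (Set.finite_singleton (0 : R))).subset ?_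
  rintro _ ⟨n, rfl⟩
  by_cases h : P.coeff n = 0
  · right; exact h
  · left
    rw [Finset.coe_image]
    exact ⟨n, by rw [Finset.mem_coe, Polynomial.mem_support_iff]; exact h, rfl⟩

section

variable {F k Ω : Type} [Field F] [Field k] [Field Ω] [Algebra F Ω] [Algebra k Ω]
    [Algebra (RatFunc F) k] {p : ℕ} [Fact p.Prime] (ι₀ : Acl F Ω →+* ℂ_[p]) (A : Subfield ℂ_[p])
    (hA : ∀ x, x ∈ A ↔ ∃ a, ι₀ a = x)
    (j : RatFunc A →+* Ω) (hjX : j RatFunc.X = algebraMap k Ω (uk F k))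
    (hjC : ∀ a : Acl F Ω, j (RatFunc.C ⟨ι₀ a, (hA _).2 ⟨a, rfl⟩⟩) = (a : Ω))

include hjX hjC

theorem cf_poly (P : Polynomial A) (S' : Set (Acl F Ω))
    (hS : ∀ (n : ℕ) (s : Acl F Ω), ((P.coeff n : A) : ℂ_[p]) = ι₀ s → s ∈ S') :
    ∃ y : kS k S', ((y : kS k S') : Ω) = j (algebraMap (Polynomial A) (RatFunc A) P) ∧
      ∀ τ : ℂ_[p], ∀ σ ∈ TT k ι₀ S' τ, σ y = P.eval₂ A.subtype τ := by
  have hex : ∀ n : ℕ, ∃ s : Acl F Ω, ι₀ s = ((P.coeff n : A) : ℂ_[p]) := fun n =>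
    (hA _).1 (P.coeff n).2
  choose s hs using hex
  have hmem : ∀ n, s n ∈ S' := fun n => hS n (s n) (hs n).symm
  refine ⟨∑ n ∈ Finset.range (P.natDegree + 1),
    (⟨(s n : Ω), mem_kS (hmem n)⟩ : kS k S') * (algebraMap k (kS k S') (uk F k)) ^ n, ?_, ?_⟩
  · have h1 : algebraMap (Polynomial A) (RatFunc A) P =
        ∑ n ∈ Finset.range (P.natDegree + 1), RatFunc.C (P.coeff n) * RatFunc.X ^ n := by
      conv_lhs => rw [P.as_sum_range_C_mul_X_pow]
      rw [map_sum]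
      refine Finset.sum_congr rfl fun n _ => ?_
      rw [map_mul, map_pow, RatFunc.algebraMap_X, RatFunc.algebraMap_C]
    rw [h1, map_sum]
    have h2 : ∀ z : Finset ℕ, ∀ f : ℕ → kS k S', (((∑ n ∈ z, f n : kS k S')) : Ω) = ∑ n ∈ z, ((f n : kS k S') : Ω) :=
      fun z f => map_sum (algebraMap (kS k S') Ω) f z
    rw [h2]
    refine Finset.sum_congr rfl fun n _ => ?_
    rw [map_mul, map_pow, hjX]
    have h3 : P.coeff n = ⟨ι₀ (s n), (hA _).2 ⟨s n, rfl⟩⟩ := Subtype.ext (hs n).symm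
    rw [h3, hjC]
    rfl
  · intro τ σ hσ
    obtain ⟨-, h2, h3⟩ := hσ
    rw [map_sum, Polynomial.eval₂_eq_sum_range]
    refine Finset.sum_congr rfl fun n _ => ?_
    rw [map_mul, map_pow, h3, h2 _ (hmem n), hs n]
    rfl

end

theorem st_CF : ST_CF := by
  intro F k Ω _ _ _ _ _ _ _ _ _ _ hFU p _ ι₀ A hA ι hι j hjX hjC c
  refine ⟨{s | ∃ n, ((c.num.coeff n : A) : ℂ_[p]) = ι₀ s ∨ ((c.denom.coeff n : A) : ℂ_[p]) = ι₀ s},
    ?_, ?_, ?_, ?_⟩
  · have h1 : ((fun a : A => (a : ℂ_[p])) '' (Set.range c.num.coeff) ∪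
        (fun a : A => (a : ℂ_[p])) '' (Set.range c.denom.coeff)).Finite :=
      ((cf_range_coeff _).image _).union ((cf_range_coeff _).image _)
    refine Set.Finite.subset (h1.preimage (f := ι₀) ι₀.injective.injOn) ?_
    rintro s ⟨n, h | h⟩
    · left
      exact ⟨c.num.coeff n, ⟨n, rfl⟩, h⟩
    · right
      exact ⟨c.denom.coeff n, ⟨n, rfl⟩, h⟩
  · rintro E hE s ⟨n, h | h⟩
    · rw [← h]; exact (cf_ov A E c hE).1 n
    · rw [← h]; exact (cf_ov A E c hE).2 n
  · rintro c₀ rfl s ⟨n, h⟩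
    obtain ⟨P₁, Q₁, h1, h2⟩ := cf_mp_num ι c₀
    rw [h1, h2, Polynomial.coeff_map, Polynomial.coeff_map, hι, hι] at h
    rcases h with h | h
    · exact ⟨P₁.coeff n, ι₀.injective h⟩
    · exact ⟨Q₁.coeff n, ι₀.injective h⟩
  · intro S' hS'
    obtain ⟨y, hy, hy2⟩ := cf_poly (k := k) ι₀ A hA j hjX hjC c.num S'
      (fun n s hs => hS' ⟨n, Or.inl hs⟩)
    obtain ⟨z, hz, hz2⟩ := cf_poly (k := k) ι₀ A hA j hjX hjC c.denom S'
      (fun n s hs => hS' ⟨n, Or.inr hs⟩)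
    have hjc : j c = j (algebraMap (Polynomial A) (RatFunc A) c.num) /
        j (algebraMap (Polynomial A) (RatFunc A) c.denom) := by
      rw [← map_div₀, RatFunc.num_div_denom]
    have hz0 : j (algebraMap (Polynomial A) (RatFunc A) c.denom) ≠ 0 := by
      rw [Ne, map_eq_zero]
      exact RatFunc.algebraMap_ne_zero c.denom_ne_zero
    have hjc2 : j c = (((y / z : kS k S')) : Ω) := by
      rw [hjc, ← hy, ← hz]
      rfl
    have hz1 : z ≠ 0 := by
      rintro rfl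
      apply hz0
      rw [← hz]
      rfl
    refine ⟨?_, ?_⟩
    · rw [hjc2]; exact (y / z : kS k S').2
    · intro τ hτ σ hσ h
      have h1 : (⟨j c, h⟩ : kS k S') = y / z := Subtype.ext hjc2
      rw [h1, map_div₀, hy2 τ σ hσ, hz2 τ σ hσ]
      rfl

end Pool.Agent.Helper22.FF
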